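import Pool.Agent.Helper29.SH.Goals

/-!
# Packet SH-BO (MP_0a002a_al)
-/

set_option autoImplicit false

namespace Pool.Agent.Helper12.SH

open Subgroup Pool.H83Shunkov Pool.Agent.Helper29.SH
open scoped Pointwise

section

variable {G : Type} [Group G]

/-- the Shunkov condition for the trivial subgroup -/
theorem pair_fin (hG : IsShunkov G) {x : G} (hx : (orderOf x).Prime) (g : G) :
    ((Pr x g : Subgroup G) : Set G).Finite := by
  have h1 : ((⊥ : Subgroup G) : Set G).Finite := by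
    rw [Subgroup.coe_bot]
    exact Set.finite_singleton 1
  have h2 : ∀ z : G, z ∈ Subgroup.normalizer ((⊥ : Subgroup G) : Set G) := by
    intro z
    rw [Subgroup.mem_normalizer_iff]
    intro h
    rw [Subgroup.mem_bot, Subgroup.mem_bot]
    constructor
    · rintro rfl; simp
    · intro h3
      have : h = z⁻¹ * (z * h * z⁻¹) * z := by group
      rw [this, h3]; group
  have h3 := hG ⊥ h1 x (g⁻¹ * x * g) g⁻¹ (orderOf x) hx (h2 _) (h2 _) (h2 _)
    (by rw [pow_orderOf_eq_one]; exact one_mem _)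
    (by
      rw [Subgroup.mem_bot]
      rintro rfl
      rw [orderOf_one] at hx
      exact Nat.not_prime_one hx)
    (by
      rw [Subgroup.mem_bot]
      group)
  refine h3.subset ?_
  exact closure_mono Set.subset_union_left

/-- if `a` has finite order an `Inv a` subgroup is invariant under `a⁻¹` too -/
theorem inv_conj {a : G} {K : Subgroup G} {p : ℕ} (hp : 0 < p) (ha : a ^ p = 1) (h : Inv a K) :
    ∀ k ∈ K, a * k * a⁻¹ ∈ K := by
  have h1 : ∀ (n : ℕ), ∀ k ∈ K, (a ^ n)⁻¹ * k * a ^ n ∈ K := by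
    intro n
    induction n with
    | zero => intro k hk; simpa using hk
    | succ n ih =>
      intro k hk
      have h2 := h _ (ih k hk)
      have h3 : (a ^ (n + 1))⁻¹ * k * a ^ (n + 1) = a⁻¹ * ((a ^ n)⁻¹ * k * a ^ n) * a := by
        rw [pow_succ]; group
      rw [h3]
      exact h2
  intro k hk
  have h2 : a = (a ^ (p - 1))⁻¹ := by
    rw [eq_inv_iff_mul_eq_one, ← pow_succ', Nat.sub_add_cancel hp, ha]
  have h3 := h1 (p - 1) k hk
  have h4 : a ^ (p - 1) = a⁻¹ := by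
    rw [eq_comm, inv_eq_iff_eq_inv]
    exact h2
  rw [h4] at h3
  simpa using h3

/-- the centralizer of an `a`-invariant subgroup is `a`-invariant -/
theorem inv_centralizer {a : G} {D : Subgroup G} {p : ℕ} (hp : 0 < p) (ha : a ^ p = 1)
    (h : Inv a D) : Inv a (centralizer (D : Set G)) := by
  intro c hc
  rw [Subgroup.mem_centralizer_iff] at hc ⊢
  intro d hd
  have h1 := hc _ (inv_conj hp ha h d hd)
  have h2 : d = a⁻¹ * (a * d * a⁻¹) * a := by group
  calc d * (a⁻¹ * c * a) = a⁻¹ * ((a * d * a⁻¹) * c) * a := by group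
    _ = a⁻¹ * (c * (a * d * a⁻¹)) * a := by rw [h1]
    _ = (a⁻¹ * c * a) * d := by group

theorem coe_sup_comm {D V : Subgroup G} (h : V ≤ centralizer (D : Set G)) :
    ((D ⊔ V : Subgroup G) : Set G) = (D : Set G) * (V : Set G) := by
  apply Subgroup.coe_mul_of_left_le_normalizer_right
  intro d hd
  rw [Subgroup.mem_normalizer_iff]
  intro v
  constructor
  · intro hv
    have h1 := (Subgroup.mem_centralizer_iff.mp (h hv)) d hd
    rw [h1, mul_assoc, mul_inv_cancel, mul_one]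
    exact hv
  · intro hv
    have h1 := (Subgroup.mem_centralizer_iff.mp (h hv)) d hd
    have h2 : v = d⁻¹ * ((d * v * d⁻¹) * d) := by group
    rw [h2, ← h1]
    have h3 : d⁻¹ * (d * (d * v * d⁻¹)) = d * v * d⁻¹ := by group
    rw [h3]
    exact hv

end

theorem t_BO : S_LFA → S_MAX → S_SEP → S_TFG → S_GLF → S_LFQ → S_FT2 → S_CORE → S_BO := by
  intro hLFA hMAX hSEP hTFG hGLF hLFQ hFT2 hCORE G _ a hRG hSh hInf hp hp2 hCfin
  by_contra hno
  set p := orderOf a with hpdef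
  have hp0 : 0 < p := hp.pos
  have hap : a ^ p = 1 := pow_orderOf_eq_one a
  have haf : IsOfFinOrder a := isOfFinOrder_iff_pow_eq_one.2 ⟨p, hp0, hap⟩
  have hPF : PairFinite a := fun g => pair_fin hSh hp g
  -- the maximal pair
  have hfinM : ∀ D : Subgroup G, (D : Set G).Finite → Inv a D →
      ((D ⊔ zpowers a : Subgroup G) : Set G).Finite := by
    intro D hD hDi
    have h1 := hLFA G a D haf hDi (isLocFin_of_finite hD)
    apply h1.finite_of_fg
    have h2 : D.FG := by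
      have : Finite D := hD.to_subtype
      exact (Group.fg_iff_subgroup_fg D).mp inferInstance
    have h3 : (zpowers a).FG := ⟨{a}, by simp [zpowers_eq_closure]⟩
    obtain ⟨S, hS⟩ := h2
    obtain ⟨T, hT⟩ := h3
    classical
    exact ⟨S ∪ T, by rw [Finset.coe_union, Subgroup.closure_union, hS, hT]⟩
  obtain ⟨M, ⟨D, hDf, hDi, hDT, hMD⟩, hmax⟩ := hMAX G a hno
    (fun M => ∃ D : Subgroup G, (D : Set G).Finite ∧ Inv a D ∧
      (Tor (centralizer (D : Set G))).Infinite ∧ M = D ⊔ zpowers a)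
    (by
      rintro M ⟨D, hDf, hDi, _, rfl⟩
      exact ⟨mem_sup_right (mem_zpowers a), hfinM D hDf hDi⟩)
    (by
      refine ⟨_, ⊥, ?_, ?_, ?_, rfl⟩
      · rw [Subgroup.coe_bot]; exact Set.finite_singleton 1
      · intro k hk
        rw [Subgroup.mem_bot] at hk
        subst hk
        simp
      · refine Set.Infinite.mono ?_ hInf
        intro g hg
        refine ⟨?_, hg⟩
        rw [Subgroup.mem_centralizer_iff]
        intro h hh
        have : h = 1 := by simpa using hh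
        subst this
        simp)
  have hMf : (M : Set G).Finite := by rw [hMD]; exact hfinM D hDf hDi
  set C : Subgroup G := centralizer (D : Set G) with hC
  have hCi : Inv a C := inv_centralizer hp0 hap hDi
  -- the normal subgroup `N`
  obtain ⟨N, hNn, -, hNS, hNG⟩ := hSEP G hRG ⊤
    (good_finite (G ⧸ (⊤ : Subgroup G)))
    (((M : Set G) ∪ Tor (centralizer ({a} : Set G))) \ {1})
    ((hMf.union hCfin).subset Set.sdiff_subset)
    (by
      rintro s ⟨hs, hs1⟩
      refine ⟨?_, hs1⟩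
      rcases hs with hs | hs
      · exact isOfFinOrder_of_mem_finite hMf hs
      · exact hs.2)
  -- the hypotheses of FT2
  have hNCi : Inv a (N ⊓ C) := by
    rintro k ⟨hk1, hk2⟩
    refine ⟨?_, hCi k hk2⟩
    have := hNn.conj_mem k hk1 a⁻¹
    simpa using this
  have hfix : ∀ t ∈ N ⊓ C, IsOfFinOrder t → t * a = a * t → t = 1 := by
    rintro t ⟨ht1, _⟩ htf hta
    by_contra ht
    refine hNS t ⟨Or.inr ⟨?_, htf⟩, ht⟩ ht1
    rw [Subgroup.mem_centralizer_iff]
    intro h hh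
    rw [Set.mem_singleton_iff] at hh
    subst hh
    exact hta.symm
  obtain ⟨hloc, hmul⟩ := hFT2 G a (N ⊓ C) p hp hp2 hap hNCi (fun g _ => hPF g) hfix
  let F : Subgroup G :=
    { carrier := {t | t ∈ N ⊓ C ∧ IsOfFinOrder t}
      mul_mem' := fun {s t} hs ht => ⟨mul_mem hs.1 ht.1, hmul s hs.1 t ht.1 hs.2 ht.2⟩
      one_mem' := ⟨one_mem _, IsOfFinOrder.one⟩
      inv_mem' := fun {s} hs => ⟨inv_mem hs.1, hs.2.inv⟩ }
  have hF : ∀ t, t ∈ F ↔ t ∈ N ⊓ C ∧ IsOfFinOrder t := fun t => Iff.rfl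
  have hFi : Inv a F := by
    intro k hk
    rw [hF] at hk ⊢
    refine ⟨hNCi k hk.1, ?_⟩
    obtain ⟨n, hn, h1⟩ := isOfFinOrder_iff_pow_eq_one.1 hk.2
    refine isOfFinOrder_iff_pow_eq_one.2 ⟨n, hn, ?_⟩
    have h2 : a⁻¹ * k * a = a⁻¹ * k * (a⁻¹)⁻¹ := by rw [inv_inv]
    rw [h2, conj_pow, h1]
    simp
  have hFloc : ∀ f ∈ F, ∃ K : Subgroup G, K ≤ F ∧ (K : Set G).Finite ∧ Inv a K ∧ f ∈ K := by
    intro f hf
    obtain ⟨K, hK1, hK2, hK3, hK4⟩ := hloc f hf.1 hf.2
    exact ⟨K, fun k hk => ⟨hK1 hk, isOfFinOrder_of_mem_finite hK2 hk⟩, hK2, hK3, hK4⟩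
  have hFfix : FPF a F := fun k hk hka => hfix k hk.1 hk.2 hka
  have hFinf : (F : Set G).Infinite := by
    intro hFf
    have hFf : (F : Set G).Finite := hFf
    obtain ⟨N', hN'n, hN'N, hN'S, hN'G⟩ := hSEP G hRG N hNG ((F : Set G) \ {1})
      (hFf.subset Set.sdiff_subset)
      (by
        rintro s ⟨hs, hs1⟩
        exact ⟨hs.2, hs1⟩)
    have hGC : Good C := hTFG G C N' hN'G (by
      intro t htC htN htf
      by_contra ht
      exact hN'S t ⟨⟨⟨hN'N htN, htC⟩, htf⟩, ht⟩ htN)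
    exact hno (hGLF G C a hSh hGC hDT hCi haf)
  have hSett : Sett a F p := by
    refine ⟨hp, hap, hFi, hFloc, hFfix, ?_, ?_⟩
    · intro S hS hSF
      obtain ⟨N₁, hN₁n, -, hN₁S, hN₁G⟩ := hSEP G hRG ⊤
        (good_finite (G ⧸ (⊤ : Subgroup G))) S hS
        (fun s hs => ⟨(hSF s hs).1.2, (hSF s hs).2⟩)
      exact ⟨N₁, hN₁n, hN₁S, hLFQ G a N₁ F hPF hFloc hFfix hN₁G⟩
    · intro x _ g _ hx
      exact pair_fin hSh hx g
  rcases hCORE G a F p hSett hFinf with ⟨L, hLF, hLi, hLinf, hLlf⟩ | ⟨V, hVF, hV0, hVf, hVi, hVinf⟩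
  · apply hno
    refine ⟨L ⊔ zpowers a, mem_sup_right (mem_zpowers a), ?_, hLFA G a L haf hLi hLlf⟩
    exact hLinf.mono (SetLike.coe_subset_coe.mpr le_sup_left)
  · have hVC : V ≤ centralizer (D : Set G) := fun v hv => (hVF hv).1.2
    have hcoe := coe_sup_comm hVC
    have hD'f : ((D ⊔ V : Subgroup G) : Set G).Finite := by
      rw [hcoe]
      exact hDf.mul hVf
    have hD'i : Inv a (D ⊔ V) := by
      intro k hk
      have hk' : k ∈ ((D ⊔ V : Subgroup G) : Set G) := hk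
      rw [hcoe] at hk'
      obtain ⟨d, hd, v, hv, rfl⟩ := Set.mem_mul.mp hk'
      have h1 : a⁻¹ * (d * v) * a = (a⁻¹ * d * a) * (a⁻¹ * v * a) := by group
      rw [h1]
      exact mul_mem (mem_sup_left (hDi d hd)) (mem_sup_right (hVi v hv))
    have hD'T : (Tor (centralizer ((D ⊔ V : Subgroup G) : Set G))).Infinite := by
      refine Set.Infinite.mono ?_ hVinf
      intro t ht
      have ht1 : t ∈ F := ht.1
      have ht2 := Subgroup.mem_centralizer_iff.mp ht.2
      have ht3 := Subgroup.mem_centralizer_iff.mp ht1.1.2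
      refine ⟨?_, ht1.2⟩
      rw [Subgroup.mem_centralizer_iff]
      intro k hk
      rw [hcoe] at hk
      obtain ⟨d, hd, v, hv, rfl⟩ := Set.mem_mul.mp hk
      rw [mul_assoc, ht2 v hv, ← mul_assoc, ht3 d hd, mul_assoc]
    have hle := hmax ((D ⊔ V) ⊔ zpowers a) ⟨D ⊔ V, hD'f, hD'i, hD'T, rfl⟩ (by
      rw [hMD]
      exact sup_le_sup_right le_sup_left _)
    obtain ⟨⟨v, hv⟩, hv0⟩ := Subgroup.ne_bot_iff_exists_ne_one.mp hV0
    have hv1 : v ≠ 1 := fun h => hv0 (Subtype.ext h)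
    have hvM : v ∈ M := hle (mem_sup_left (mem_sup_right hv))
    exact hNS v ⟨Or.inl hvM, hv1⟩ (hVF hv).1.1

end Pool.Agent.Helper12.SH
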